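import Mathlib

/-!
# MP_98cb65_gt, Q2: a locally connected continuum without property (F)

The infinite torus `(ℝ/ℤ)^ℕ` is a compact, connected, locally connected metric space.  For every
`B > 0` the half turn of a coordinate of large index is a continuous self-map without fixed
points all of whose iterates are uniformly within `B` of the identity.
-/

namespace Pool.Agent.Results.MP_98cb65_gt.InfiniteTorus

/-- All iterates `T^ν`, `ν ≥ 1`, of `T` move every point by less than `B`. -/
def IterateDisplacementBelow {X : Type*} [MetricSpace X] (T : X → X) (B : ℝ) : Prop :=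
  ∀ x : X, ∀ ν : ℕ, 1 ≤ ν → dist (T^[ν] x) x < B

/-- Property (F): for some `B > 0` every continuous self-map with iterate displacement below `B`
has a fixed point. -/
def PropertyF (X : Type*) [MetricSpace X] : Prop :=
  ∃ B : ℝ, 0 < B ∧ ∀ T : X → X, Continuous T → IterateDisplacementBelow T B → ∃ x₀ : X, T x₀ = x₀

open scoped PiCountable Topology

/-- The infinite torus. -/
abbrev Torus : Type := ℕ → AddCircle (1 : ℝ)

noncomputable instance instMetricTorus : MetricSpace Torus := PiCountable.metricSpace

lemma topology_eq :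
    (instMetricTorus.toPseudoMetricSpace.toUniformSpace.toTopologicalSpace)
      = (Pi.topologicalSpace : TopologicalSpace (ℕ → AddCircle (1 : ℝ))) := rfl

instance : LocallyPathConnectedSpace (AddCircle (1 : ℝ)) :=
  inferInstanceAs <| LocallyPathConnectedSpace (Quotient _)

/-- half turn of the `k`-th coordinate -/
noncomputable def halfTurn (k : ℕ) (x : Torus) : Torus :=
  Function.update x k (x k + ((1 / 2 : ℝ) : AddCircle (1 : ℝ)))

lemma halfTurn_continuous (k : ℕ) : Continuous (halfTurn k) := by
  have h : Continuous[Pi.topologicalSpace, Pi.topologicalSpace] (halfTurn k) := by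
    unfold halfTurn
    fun_prop
  exact h

lemma halfTurn_ne (k : ℕ) (x : Torus) : halfTurn k x ≠ x := by
  intro h
  have h1 := congrFun h k
  simp only [halfTurn, Function.update_self] at h1
  have h2 : ((1 / 2 : ℝ) : AddCircle (1 : ℝ)) = 0 := by
    simpa using h1
  rw [AddCircle.coe_eq_zero_iff] at h2
  obtain ⟨n, hn⟩ := h2
  have h3 : (n : ℝ) = 1 / 2 := by simpa using hn
  have h4 : (2 : ℝ) * n = 1 := by linarith
  have h5 : (2 : ℤ) * n = 1 := by exact_mod_cast h4
  omega

lemma halfTurn_iterate_apply (k ν : ℕ) (x : Torus) (i : ℕ) (hi : i ≠ k) :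
    ((halfTurn k)^[ν] x) i = x i := by
  induction ν generalizing x with
  | zero => rfl
  | succ n ih =>
    rw [Function.iterate_succ_apply, ih]
    simp [halfTurn, Function.update_of_ne hi]

lemma dist_halfTurn_iterate (k ν : ℕ) (x : Torus) :
    dist ((halfTurn k)^[ν] x) x ≤ (2⁻¹ : ℝ) ^ k := by
  have h := PiCountable.dist_eq_tsum ((halfTurn k)^[ν] x) x
  have h2 : ∑' i, min ((2⁻¹ : ℝ) ^ Encodable.encode i) (dist (((halfTurn k)^[ν] x) i) (x i))
      = min ((2⁻¹ : ℝ) ^ Encodable.encode k) (dist (((halfTurn k)^[ν] x) k) (x k)) := by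
    apply tsum_eq_single
    intro i hi
    rw [halfTurn_iterate_apply k ν x i hi, dist_self]
    exact min_eq_right (by positivity)
  have h3 : dist ((halfTurn k)^[ν] x) x
      = min ((2⁻¹ : ℝ) ^ Encodable.encode k) (dist (((halfTurn k)^[ν] x) k) (x k)) := by
    rw [← h2]
    exact h
  rw [h3]
  simp only [Encodable.encode_nat]
  exact min_le_left _ _

lemma not_propertyF : ¬ PropertyF Torus := by
  rintro ⟨B, hB, h⟩
  obtain ⟨k, hk⟩ := exists_pow_lt_of_lt_one hB (show (2⁻¹ : ℝ) < 1 by norm_num)
  obtain ⟨x, hx⟩ := h (halfTurn k) (halfTurn_continuous k)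
    (fun x ν _ => (dist_halfTurn_iterate k ν x).trans_lt hk)
  exact halfTurn_ne k x hx

/-- There is a locally connected continuum (a compact, connected, locally connected metric space)
that does not have property (F): for every `B > 0` it carries a continuous fixed-point-free
self-map all of whose iterates move points by less than `B`. -/
theorem result : ∃ (X : Type) (_ : MetricSpace X), CompactSpace X ∧ ConnectedSpace X ∧
    LocallyConnectedSpace X ∧ ¬ PropertyF X := by
  refine ⟨Torus, instMetricTorus, ?_, ?_, ?_, not_propertyF⟩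
  · exact (inferInstance : @CompactSpace (ℕ → AddCircle (1 : ℝ)) Pi.topologicalSpace)
  · exact (inferInstance : @ConnectedSpace (ℕ → AddCircle (1 : ℝ)) Pi.topologicalSpace)
  · exact (inferInstance : @LocallyConnectedSpace (ℕ → AddCircle (1 : ℝ)) Pi.topologicalSpace)

end Pool.Agent.Results.MP_98cb65_gt.InfiniteTorus
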